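import Pool.Agent.Y743.SD.Stm
import Pool.Agent.W327.SD.Top

/-!
Project SD (helper743), task SQ: the smooth twisted sum over all primes, on RH.
Proof by helper960.
-/

set_option autoImplicit false

namespace Pool.Agent.Y960.SDSQ

open Filter Topology LSeries ArithmeticFunction ArithmeticFunction.vonMangoldt


noncomputable section

/-- indicator of the primes -/
def ff (n : ℕ) : ℂ := if n.Prime then 1 else 0

/-- the von Mangoldt function outside of the primes -/
def gg (n : ℕ) : ℝ := if n.Prime then 0 else vonMangoldt n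

lemma gg_nonneg (n : ℕ) : 0 ≤ gg n := by
  unfold gg
  split_ifs
  · exact le_rfl
  · exact vonMangoldt_nonneg

lemma gg_le (n : ℕ) : gg n ≤ vonMangoldt n := by
  unfold gg
  split_ifs
  · exact vonMangoldt_nonneg
  · exact le_rfl

lemma summable_gg : Summable (fun n : ℕ => gg n / n) := by
  have h := summable_residueClass_non_primes_div (q := 1) (a := (0 : ZMod 1))
  refine h.congr fun n => ?_
  unfold gg residueClass
  rw [Set.indicator_of_mem (show n ∈ {n : ℕ | (n : ZMod 1) = 0} from Subsingleton.elim _ _)]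

lemma ff_absc : abscissaOfAbsConv ff ≤ 1 := by
  refine LSeries.abscissaOfAbsConv_le_of_le_const ⟨1, fun n _ => ?_⟩
  unfold ff
  split_ifs <;> simp

lemma ff_lt {s : ℂ} (hs : 1 < s.re) : abscissaOfAbsConv ff < s.re :=
  lt_of_le_of_lt ff_absc (by exact_mod_cast hs)

/-- the constant -/
def C1 : ℝ := ∑' n : ℕ, gg n / n

lemma C1_nonneg : 0 ≤ C1 := tsum_nonneg fun n => div_nonneg (gg_nonneg n) (Nat.cast_nonneg n)

lemma gg_term {s : ℂ} (hs : 1 ≤ s.re) (n : ℕ) : ‖LSeries.term (fun n => (gg n : ℂ)) s n‖ ≤ gg n / n := by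
  rcases Nat.eq_zero_or_pos n with hn | hn
  · subst hn; simp
  · rw [LSeries.term_of_ne_zero hn.ne', norm_div, Complex.norm_real, Real.norm_eq_abs,
      abs_of_nonneg (gg_nonneg n), Complex.norm_natCast_cpow_of_pos hn]
    refine div_le_div_of_nonneg_left (gg_nonneg n) (by exact_mod_cast hn) ?_
    calc (n : ℝ) = (n : ℝ) ^ (1 : ℝ) := (Real.rpow_one _).symm
      _ ≤ (n : ℝ) ^ s.re := Real.rpow_le_rpow_of_exponent_le (by exact_mod_cast hn) hs

lemma gg_summable {s : ℂ} (hs : 1 ≤ s.re) : LSeriesSummable (fun n => (gg n : ℂ)) s :=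
  Summable.of_norm_bounded summable_gg (gg_term hs)

lemma gg_LSeries {s : ℂ} (hs : 1 ≤ s.re) : ‖LSeries (fun n => (gg n : ℂ)) s‖ ≤ C1 := by
  unfold LSeries C1
  exact tsum_of_norm_bounded summable_gg.hasSum (gg_term hs)

lemma deriv_bound {s : ℂ} (hs : 1 < s.re) :
    ‖LSeries (logMul ff) s‖ ≤ ‖logDeriv riemannZeta s‖ + C1 := by
  have h1 : (fun n => ((vonMangoldt n : ℝ) : ℂ)) = logMul ff + fun n => (gg n : ℂ) := by
    funext n
    rw [Pi.add_apply]
    unfold logMul ff gg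
    split_ifs with h
    · rw [vonMangoldt_apply_prime h]
      push_cast
      ring
    · simp
  have h2 := LSeries_vonMangoldt_eq_deriv_riemannZeta_div hs
  rw [h1, LSeries_add (LSeriesSummable_logMul_of_lt_re (ff_lt hs)) (gg_summable hs.le)] at h2
  have h3 : LSeries (logMul ff) s = -logDeriv riemannZeta s - LSeries (fun n => (gg n : ℂ)) s := by
    rw [logDeriv_apply, ← neg_div, ← h2]
    ring
  rw [h3]
  calc _ ≤ ‖-logDeriv riemannZeta s‖ + ‖LSeries (fun n => (gg n : ℂ)) s‖ := norm_sub_le _ _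
    _ ≤ _ := by
        rw [norm_neg]
        linarith [gg_LSeries hs.le]

/-- bounds near the real axis -/
lemma near (t1 : ℝ) : ∃ C : ℝ, 0 ≤ C ∧ ∀ s : ℂ, 1 ≤ s.re → s.re ≤ 2 → 0 < s.im → s.im ≤ t1 →
    ‖logDeriv riemannZeta s‖ ≤ 1 / s.im + C := by
  have h0 : DirichletCharacter.LFunctionTrivChar 1 = riemannZeta :=
    DirichletCharacter.LFunction_modOne_eq
  have hc := DirichletCharacter.continuousOn_neg_logDeriv_LFunctionTrivChar₁ 1
  have hK : IsCompact (Set.Icc (1 : ℝ) 2 ×ℂ Set.Icc (0 : ℝ) t1) :=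
    isCompact_Icc.reProdIm isCompact_Icc
  have hsub : (Set.Icc (1 : ℝ) 2 ×ℂ Set.Icc (0 : ℝ) t1) ⊆
      {s | s = 1 ∨ DirichletCharacter.LFunctionTrivChar 1 s ≠ 0} := by
    intro s hs
    rw [h0]
    exact Or.inr (riemannZeta_ne_zero_of_one_le_re hs.1.1)
  obtain ⟨C, hC⟩ := hK.exists_bound_of_continuousOn (hc.mono hsub)
  refine ⟨max C 0, le_max_right _ _, fun s h1 h2 h3 h4 => ?_⟩
  have hs1 : s ≠ 1 := by
    rintro rfl
    simp at h3
  have h5 := hC s ⟨⟨h1, h2⟩, h3.le, h4⟩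
  have hz : riemannZeta s ≠ 0 := riemannZeta_ne_zero_of_one_le_re h1
  have hs2 : s - 1 ≠ 0 := sub_ne_zero.2 hs1
  rw [DirichletCharacter.deriv_LFunctionTrivChar₁_apply_of_ne_one 1 hs1,
    DirichletCharacter.LFunctionTrivChar₁, Function.update_of_ne hs1, h0] at h5
  have h6 : logDeriv riemannZeta s = -(-((s - 1) * deriv riemannZeta s + riemannZeta s) /
      ((s - 1) * riemannZeta s)) - 1 / (s - 1) := by
    rw [logDeriv_apply]
    field_simp
    ring
  rw [h6]
  refine (norm_sub_le _ _).trans ?_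
  rw [norm_neg]
  have h6' : ‖1 / (s - 1)‖ = 1 / ‖s - 1‖ := by rw [norm_div, norm_one]
  rw [h6']
  have h7 : s.im ≤ ‖s - 1‖ := by
    have := Complex.abs_im_le_norm (s - 1)
    rw [Complex.sub_im, Complex.one_im, sub_zero, abs_of_pos h3] at this
    exact this
  have h8 : 1 / ‖s - 1‖ ≤ 1 / s.im := one_div_le_one_div_of_le h3 h7
  have h9 := h5.trans (le_max_left C 0)
  linarith

/-- the sum over the primes -/
def AA (σ y : ℝ) : ℝ := ∑' p : Nat.Primes, (p : ℝ) ^ (-σ) * Real.cos (y * Real.log p)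

lemma sum_primes {σ : ℝ} (hσ : 1 < σ) : Summable (fun p : Nat.Primes => (p : ℝ) ^ (-σ)) :=
  Nat.Primes.summable_rpow.2 (by linarith)

lemma AA_summable {σ : ℝ} (hσ : 1 < σ) (y : ℝ) :
    Summable (fun p : Nat.Primes => (p : ℝ) ^ (-σ) * Real.cos (y * Real.log p)) := by
  refine Summable.of_norm_bounded (sum_primes hσ) fun p => ?_
  rw [norm_mul, Real.norm_eq_abs, Real.norm_eq_abs, abs_of_nonneg (by positivity)]
  exact mul_le_of_le_one_right (by positivity) (Real.abs_cos_le_one _)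

lemma AA_eq {σ : ℝ} (hσ : 1 < σ) (y : ℝ) : AA σ y = (LSeries ff (σ + y * Complex.I)).re := by
  have hs : 1 < ((σ : ℂ) + y * Complex.I).re := by simpa using hσ
  have h1 : Summable (LSeries.term ff (σ + y * Complex.I)) :=
    LSeriesSummable_of_abscissaOfAbsConv_lt_re (ff_lt hs)
  unfold LSeries AA
  rw [Complex.re_tsum h1]
  have h2 : ∀ p : Nat.Primes, (p : ℝ) ^ (-σ) * Real.cos (y * Real.log p) =
      (fun n : ℕ => (LSeries.term ff (σ + y * Complex.I) n).re) (p : ℕ) := by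
    intro p
    have hp : (p : ℕ) ≠ 0 := p.2.ne_zero
    have hp0 : (0 : ℝ) < ((p : ℕ) : ℝ) := by exact_mod_cast p.2.pos
    show _ = (LSeries.term ff (σ + y * Complex.I) p).re
    rw [LSeries.term_of_ne_zero hp, ff, if_pos p.2, one_div, ← Complex.cpow_neg,
      Complex.cpow_def_of_ne_zero (by exact_mod_cast hp), ← Complex.natCast_log, Complex.exp_re]
    have e1 : (((Real.log ((p : ℕ) : ℝ) : ℝ) : ℂ) * -((σ : ℂ) + y * Complex.I)).re =
        Real.log p * (-σ) := by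
      rw [Complex.re_ofReal_mul]
      congr 1
      simp
    have e2 : (((Real.log ((p : ℕ) : ℝ) : ℝ) : ℂ) * -((σ : ℂ) + y * Complex.I)).im =
        -(y * Real.log p) := by
      rw [Complex.im_ofReal_mul, Complex.neg_im, Complex.add_im, Complex.ofReal_im, zero_add,
        Complex.im_ofReal_mul, Complex.I_im]
      ring
    rw [e1, e2, Real.cos_neg, Real.rpow_def_of_pos hp0]
  rw [tsum_congr h2]
  have h3 := tsum_subtype {n : ℕ | n.Prime} (fun n : ℕ => (LSeries.term ff (σ + y * Complex.I) n).re)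
  refine h3.trans (tsum_congr fun n => ?_)
  by_cases hn : n.Prime
  · rw [Set.indicator_of_mem (show n ∈ {n : ℕ | n.Prime} from hn)]
  · rw [Set.indicator_of_notMem (show n ∉ {n : ℕ | n.Prime} from hn)]
    rcases Nat.eq_zero_or_pos n with h0 | h0
    · subst h0; simp
    · rw [LSeries.term_of_ne_zero h0.ne', ff, if_neg hn, zero_div, Complex.zero_re]

/-- Lipschitz bound for the sum -/
lemma AA_lip {σ : ℝ} (hσ : 1 < σ) {a b M : ℝ} (hab : a ≤ b)
    (hM : ∀ y ∈ Set.Icc a b, ‖logDeriv riemannZeta (σ + y * Complex.I)‖ + C1 ≤ M) :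
    |AA σ b - AA σ a| ≤ M * (b - a) := by
  have hd : ∀ y : ℝ, HasDerivAt (fun y : ℝ => LSeries ff (σ + y * Complex.I))
      (-LSeries (logMul ff) (σ + y * Complex.I) * Complex.I) y := by
    intro y
    have hs : 1 < ((σ : ℂ) + y * Complex.I).re := by simpa using hσ
    have h1 := LSeries_hasDerivAt (ff_lt hs)
    have h2 : HasDerivAt (fun y : ℝ => (σ : ℂ) + y * Complex.I) Complex.I y := by
      have h3 : HasDerivAt (fun y : ℝ => (y : ℂ)) 1 y := Complex.ofRealCLM.hasDerivAt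
      simpa using (h3.mul_const Complex.I).const_add (σ : ℂ)
    exact HasDerivAt.comp y h1 h2
  have h1 : ‖(fun y : ℝ => LSeries ff (σ + y * Complex.I)) b -
      (fun y : ℝ => LSeries ff (σ + y * Complex.I)) a‖ ≤ M * ‖b - a‖ := by
    refine Convex.norm_image_sub_le_of_norm_hasDerivWithin_le (s := Set.Icc a b)
      (fun y _ => (hd y).hasDerivWithinAt) (fun y hy => ?_) (convex_Icc a b)
      (Set.left_mem_Icc.2 hab) (Set.right_mem_Icc.2 hab)
    have hs : 1 < ((σ : ℂ) + y * Complex.I).re := by simpa using hσ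
    rw [norm_mul, norm_neg, Complex.norm_I, mul_one]
    exact (deriv_bound hs).trans (hM y hy)
  rw [AA_eq hσ, AA_eq hσ, ← Complex.sub_re]
  refine (Complex.abs_re_le_norm _).trans ?_
  rwa [Real.norm_eq_abs, abs_of_nonneg (by linarith : 0 ≤ b - a)] at h1

/-- the trigonometric identity -/
lemma sum_eq {σ : ℝ} (hσ : 1 < σ) (h c : ℝ) :
    ∑' p : Nat.Primes, (p : ℝ) ^ (-σ) * Real.sin (h / 2 * Real.log p) ^ 2 *
      Real.cos (c * Real.log p) =
    (AA σ c - AA σ (c + h)) / 4 + (AA σ c - AA σ (c - h)) / 4 := by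
  unfold AA
  rw [← (AA_summable hσ c).tsum_sub (AA_summable hσ (c + h)),
    ← (AA_summable hσ c).tsum_sub (AA_summable hσ (c - h)), ← tsum_div_const, ← tsum_div_const,
    ← Summable.tsum_add (((AA_summable hσ c).sub (AA_summable hσ (c + h))).div_const _)
      (((AA_summable hσ c).sub (AA_summable hσ (c - h))).div_const _)]
  refine tsum_congr fun p => ?_
  have h1 : Real.sin (h / 2 * Real.log p) ^ 2 = (1 - Real.cos (h * Real.log p)) / 2 := by
    rw [Real.sin_sq_eq_half_sub]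
    rw [show 2 * (h / 2 * Real.log p) = h * Real.log p by ring]
    ring
  rw [h1, add_mul, sub_mul, Real.cos_add, Real.cos_sub]
  ring

lemma far (zl : ∀ ε : ℝ, 0 < ε → ∃ t1 : ℝ, 2 ≤ t1 ∧
    ∀ s : ℂ, 1 / 2 + 0 + ε ≤ s.re → t1 ≤ s.im →
      (∀ w : ℂ, 1 / 2 + 0 < w.re → |w.im - s.im| ≤ 10 → riemannZeta w ≠ 0) →
      riemannZeta s ≠ 0 ∧ ‖logDeriv riemannZeta s‖ ≤ ε * Real.log s.im)
    (hRH : RiemannHypothesis) {ε : ℝ} (hε : 0 < ε) (hε2 : ε ≤ 1 / 2) :
    ∃ t1 : ℝ, 2 ≤ t1 ∧ ∀ s : ℂ, 1 ≤ s.re → t1 ≤ s.im →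
      ‖logDeriv riemannZeta s‖ ≤ ε * Real.log s.im := by
  obtain ⟨t1, h2, h⟩ := zl ε hε
  refine ⟨t1, h2, fun s h1 h3 => (h s (by linarith) h3 fun w hw1 _ hw3 => ?_).2⟩
  have h4 := hRH w hw3 ?_ ?_
  · rw [h4] at hw1
    linarith
  · rintro ⟨n, rfl⟩
    have h5 : ((-2 : ℂ) * ((n : ℂ) + 1)).re = -2 * ((n : ℝ) + 1) := by simp
    rw [h5] at hw1
    have : (0 : ℝ) ≤ n := Nat.cast_nonneg n
    linarith
  · rintro rfl
    exact riemannZeta_one_ne_zero hw3

theorem sq' (zl : ∀ ε : ℝ, 0 < ε → ∃ t1 : ℝ, 2 ≤ t1 ∧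
    ∀ s : ℂ, 1 / 2 + 0 + ε ≤ s.re → t1 ≤ s.im →
      (∀ w : ℂ, 1 / 2 + 0 < w.re → |w.im - s.im| ≤ 10 → riemannZeta w ≠ 0) →
      riemannZeta s ≠ 0 ∧ ‖logDeriv riemannZeta s‖ ≤ ε * Real.log s.im) :
  RiemannHypothesis → ∀ K : ℝ, 0 < K → ∃ T0 : ℝ, 10 ≤ T0 ∧ ∀ T : ℝ, T0 ≤ T →
  ∀ δ : ℝ, 0 < δ → δ ≤ 1 → ∀ c : ℝ, 2 * (K / Real.log T) ≤ c → c ≤ 4 * T →
    |∑' p : Nat.Primes, (p : ℝ) ^ (-(1 + δ)) * Real.sin (K / Real.log T / 2 * Real.log p) ^ 2 *
      Real.cos (c * Real.log p)| ≤ 1 := by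
  intro hRH K hK
  have hε : 0 < min (1 / (4 * K)) (1 / 2) := lt_min (by positivity) (by norm_num)
  obtain ⟨t1, ht1, hfar⟩ := far zl hRH hε (min_le_right _ _)
  obtain ⟨C3, hC3, hnear⟩ := near t1
  have hC1 := C1_nonneg
  refine ⟨max 10 (Real.exp (2 * K * (C1 + C3))), le_max_left _ _, fun T hT δ hδ hδ1 c hc1 hc2 => ?_⟩
  have hT10 : 10 ≤ T := (le_max_left _ _).trans hT
  have hT0 : 0 < T := by linarith
  have hL : 2 * K * (C1 + C3) ≤ Real.log T := by
    rw [Real.le_log_iff_exp_le hT0]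
    exact (le_max_right _ _).trans hT
  have hL0 : 0 < Real.log T := Real.log_pos (by linarith)
  set ε := min (1 / (4 * K)) (1 / 2) with hεd
  have hεK : ε * K ≤ 1 / 4 := by
    have h1 : ε ≤ 1 / (4 * K) := min_le_left _ _
    calc ε * K ≤ 1 / (4 * K) * K := mul_le_mul_of_nonneg_right h1 hK.le
      _ = 1 / 4 := by field_simp
  set h := K / Real.log T with hh
  have hh0 : 0 < h := div_pos hK hL0
  have hσ : 1 < 1 + δ := by linarith
  have key : ∀ y : ℝ, h ≤ y → y ≤ 6 * T →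
      ‖logDeriv riemannZeta (((1 + δ : ℝ) : ℂ) + y * Complex.I)‖ + C1 ≤
        1 / h + C3 + C1 + 2 * ε * Real.log T := by
    intro y hy1 hy2
    have hy0 : 0 < y := lt_of_lt_of_le hh0 hy1
    have hre : (((1 + δ : ℝ) : ℂ) + y * Complex.I).re = 1 + δ := by simp
    have him : (((1 + δ : ℝ) : ℂ) + y * Complex.I).im = y := by simp
    have hp : 0 ≤ 2 * ε * Real.log T := by positivity
    have hp2 : 0 ≤ 1 / h := by positivity
    rcases le_total t1 y with h1 | h1
    · have h2 := hfar (((1 + δ : ℝ) : ℂ) + y * Complex.I) (by rw [hre]; linarith) (by rw [him]; exact h1)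
      rw [him] at h2
      have h3 : Real.log y ≤ 2 * Real.log T := by
        have h4 : Real.log y ≤ Real.log (T ^ 2) := Real.log_le_log hy0 (by nlinarith)
        rwa [Real.log_pow, Nat.cast_ofNat] at h4
      have h4 := mul_le_mul_of_nonneg_left h3 hε.le
      linarith
    · have h2 := hnear (((1 + δ : ℝ) : ℂ) + y * Complex.I) (by rw [hre]; linarith)
        (by rw [hre]; linarith) (by rw [him]; exact hy0) (by rw [him]; exact h1)
      rw [him] at h2
      have h3 : 1 / y ≤ 1 / h := one_div_le_one_div_of_le hh0 hy1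
      linarith
  have hM : (1 / h + C3 + C1 + 2 * ε * Real.log T) * h ≤ 2 := by
    have e1 : (1 / h + C3 + C1 + 2 * ε * Real.log T) * h =
        1 + K * (C1 + C3) / Real.log T + 2 * (ε * K) := by
      rw [hh]
      field_simp
      ring
    have e2 : K * (C1 + C3) / Real.log T ≤ 1 / 2 := by
      rw [div_le_iff₀ hL0]
      linarith
    rw [e1]
    linarith
  have a1 : |AA (1 + δ) (c + h) - AA (1 + δ) c| ≤ 2 := by
    refine (AA_lip hσ (by linarith : c ≤ c + h) fun y hy => key y (by linarith [hy.1])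
      (by linarith [hy.2])).trans ?_
    rw [add_sub_cancel_left]
    exact hM
  have a2 : |AA (1 + δ) c - AA (1 + δ) (c - h)| ≤ 2 := by
    refine (AA_lip hσ (by linarith : c - h ≤ c) fun y hy => key y (by linarith [hy.1])
      (by linarith [hy.2])).trans ?_
    rw [sub_sub_cancel]
    exact hM
  rw [sum_eq hσ h c]
  rw [abs_le] at a1 a2 ⊢
  constructor <;> linarith [a1.1, a1.2, a2.1, a2.2]

theorem sq : Pool.Agent.Y743.SD.S_SQ :=
  sq' fun ε hε => W327.SD.zloc 0 ε le_rfl (by norm_num) hε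

end

end Pool.Agent.Y960.SDSQ
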